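import Mathlib

namespace Pool.Agent.H.MP_941e3e_gt

open Set Cardinal Order Filter Topology

/-- Some linear order on `X` gives every non-empty closed set a least and a greatest element. -/
def SymWO (X : Type) [TopologicalSpace X] : Prop :=
  ∃ o : LinearOrder X, ∀ F : Set X, IsClosed F → F.Nonempty →
    (∃ a ∈ F, ∀ b ∈ F, o.le a b) ∧ (∃ a ∈ F, ∀ b ∈ F, o.le b a)

/-- The points of cofinality `ω`: suprema of strictly increasing sequences. -/
def S (α : Type) [LinearOrder α] : Set α := {x | ∃ f : ℕ → α, StrictMono f ∧ IsLUB (range f) x}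

/-- Friedman's property for the well-order `α`: every stationary set of points of cofinality `ω`
contains the range of a normal (strictly increasing, continuous) function on `ω₁`. -/
def FP (α : Type) [LinearOrder α] : Prop :=
  ∀ T : Set α, T ⊆ S α → IsStationary T →
    ∃ f : (Cardinal.aleph.{0} 1).ord.ToType → α, IsNormal f ∧ ∀ i, f i ∈ T

section general
variable {α : Type} [LinearOrder α]

theorem bdd (hc : ℵ₀ < cof α) {A : Set α} (hA : A.Countable) : BddAbove A :=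
  .of_not_isCofinal fun h => (cof_le h).not_gt
    ((le_aleph0_iff_set_countable.mpr hA).trans_lt hc)

theorem exists_gt (hc : ℵ₀ < cof α) (x : α) : ∃ y, x < y := by
  by_contra h
  push Not at h
  have : IsCofinal ({x} : Set α) := fun y => ⟨x, rfl, h y⟩
  have h2 := cof_le this
  rw [mk_singleton] at h2
  exact (h2.trans_lt one_lt_aleph0).not_gt hc

theorem nonempty (hc : ℵ₀ < cof α) : Nonempty α := by
  by_contra h
  rw [not_nonempty_iff] at h
  simp at hc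

variable [WellFoundedLT α]

theorem exists_lub {A : Set α} (h : BddAbove A) : ∃ x, IsLUB A x :=
  ⟨_, (wellFounded_lt (α := α)).min_mem _ h,
    fun _ hy => not_lt.mp ((wellFounded_lt (α := α)).not_lt_min _ hy)⟩

/-- a strictly increasing sequence through given cofinal choices has a supremum in `S` -/
theorem seq (hc : ℵ₀ < cof α) (a : α) (P : α → α → Prop) (h : ∀ x, ∃ y, x < y ∧ P x y) :
    ∃ g : ℕ → α, ∃ y, g 0 = a ∧ StrictMono g ∧ (∀ n, P (g n) (g (n + 1))) ∧ IsLUB (range g) y := by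
  choose F hF using h
  let g : ℕ → α := fun n => F^[n] a
  have hg : ∀ n, g (n + 1) = F (g n) := fun n => Function.iterate_succ_apply' F n a
  obtain ⟨y, hy⟩ := exists_lub (bdd hc (countable_range g))
  exact ⟨g, y, rfl, strictMono_nat_of_lt_succ fun n => by rw [hg]; exact (hF _).1,
    fun n => by rw [hg]; exact (hF _).2, hy⟩

theorem lub_tail {g : ℕ → α} (hg : StrictMono g) {y : α} (hy : IsLUB (range g) y) (n : ℕ) :
    IsLUB (range fun m => g (m + n)) y := by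
  refine ⟨?_, fun z hz => hy.2 ?_⟩
  · rintro _ ⟨m, rfl⟩; exact hy.1 ⟨_, rfl⟩
  · rintro _ ⟨m, rfl⟩
    exact (hg.monotone (Nat.le_add_right m n)).trans (hz ⟨m, rfl⟩)

theorem club_gt (hc : ℵ₀ < cof α) {C : Set α} (hC : IsClub C) (x : α) : ∃ y, x < y ∧ y ∈ C := by
  obtain ⟨z, hz⟩ := exists_gt hc x
  obtain ⟨y, hy, hzy⟩ := hC.isCofinal z
  exact ⟨y, hz.trans_le hzy, hy⟩

theorem S_stat (hc : ℵ₀ < cof α) : IsStationary (S α) := by
  intro C hC
  obtain ⟨a⟩ := nonempty hc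
  obtain ⟨g, y, -, hg, hP, hy⟩ := seq hc a (fun _ y => y ∈ C) (club_gt hc hC)
  refine ⟨y, ⟨g, hg, hy⟩, hC.isLUB_mem ?_ (range_nonempty _) (lub_tail hg hy 1)⟩
  rintro _ ⟨m, rfl⟩
  exact hP m

theorem diag (hc : ℵ₀ < cof α) (hI : ∀ x : α, #(Iic x) < cof α) (C : α → Set α)
    (hC : ∀ x, IsClub (C x)) : IsClub {y | ∀ x < y, y ∈ C x} := by
  constructor
  · intro A hA hne _ y hy x hx
    obtain ⟨a, ha, hxa⟩ : ∃ a ∈ A, x < a := (lt_isLUB_iff hy).mp hx
    refine (hC x).isLUB_mem (t := A ∩ Ioi x) (fun b hb => hA hb.1 x hb.2) ⟨a, ha, hxa⟩ ?_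
    refine ⟨fun b hb => hy.1 hb.1, fun z hz => hy.2 fun b hb => ?_⟩
    rcases lt_or_ge x b with h | h
    · exact hz ⟨hb, h⟩
    · exact (h.trans hxa.le).trans (hz ⟨ha, hxa⟩)
  · intro a
    obtain ⟨g, y, h0, hg, hP, hy⟩ := seq hc a (fun x y => y ∈ ⋂ i : Iic x, C i) fun x =>
      club_gt hc (IsClub.iInter (f := fun i : Iic x => C i) hc.ne' (by simpa using hI x)
        fun i => hC i) x
    refine ⟨y, fun x hx => ?_, h0 ▸ hy.1 ⟨0, rfl⟩⟩
    obtain ⟨_, ⟨n, rfl⟩, hn⟩ := (lt_isLUB_iff hy).mp hx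
    refine (hC x).isLUB_mem ?_ (range_nonempty _) (lub_tail hg hy (n + 1))
    rintro _ ⟨m, rfl⟩
    exact mem_iInter.mp (hP (m + n)) ⟨x, hn.le.trans (hg.monotone (Nat.le_add_left n m))⟩

variable [TopologicalSpace α] [OrderTopology α]

theorem Iic_nhds (x : α) : Iic x ∈ 𝓝 x := by
  by_cases h : (Ioi x).Nonempty
  · have h1 := (wellFounded_lt (α := α)).min_mem _ h
    refine mem_of_superset (Iio_mem_nhds h1) fun z hz => ?_
    by_contra h2
    exact (wellFounded_lt (α := α)).not_lt_min (Ioi x) (not_le.mp h2) hz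
  · refine mem_of_superset univ_mem fun z _ => ?_
    by_contra h2
    exact h ⟨z, not_le.mp h2⟩

theorem lub_of_closure {K : Set α} {x : α} (hx : x ∈ closure K) (hK : x ∉ K) :
    (K ∩ Iio x).Nonempty ∧ IsLUB (K ∩ Iio x) x := by
  have h1 : x ∈ closure (K ∩ Iio x) := by
    rw [mem_closure_iff_nhds] at hx ⊢
    intro t ht
    obtain ⟨z, hz, hzK⟩ := hx _ (inter_mem ht (Iic_nhds x))
    exact ⟨z, hz.1, hzK, lt_of_le_of_ne hz.2 fun e => hK (e ▸ hzK)⟩
  exact ⟨closure_nonempty_iff.mp ⟨x, h1⟩, isLUB_of_mem_closure (fun z hz => hz.2.le) h1⟩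

theorem closed_of {K : Set α}
    (h : ∀ x ∈ S α, ∀ A ⊆ K, A.Nonempty → IsLUB A x → x ∈ K) :
    IsClosed (Subtype.val ⁻¹' K : Set (S α)) := by
  refine isClosed_of_closure_subset fun x hx => ?_
  by_contra hK
  have h1 : x.1 ∈ closure K :=
    closure_mono (image_preimage_subset _ _) (image_closure_subset_closure_image
      continuous_subtype_val ⟨x, hx, rfl⟩)
  obtain ⟨h2, h3⟩ := lub_of_closure h1 hK
  exact hK (h x.1 x.2 _ inter_subset_left h2 h3)

theorem S_cc (hc : ℵ₀ < cof α) : CountablyCompactSpace (S α) := by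
  rw [← isCountablyCompact_iff_countablyCompactSpace]
  refine IsSeqCompact.isCountablyCompact fun x hx => ?_
  obtain ⟨g, hg⟩ := (wellQuasiOrdered_le (α := α)).exists_monotone_subseq x
  have hm : Monotone (x ∘ g) := fun m n h => hg m n h
  obtain ⟨y, hy⟩ := exists_lub (bdd hc (countable_range (x ∘ g)))
  refine ⟨y, ?_, g, g.strictMono, tendsto_atTop_isLUB hm hy⟩
  by_cases h : y ∈ range (x ∘ g)
  · obtain ⟨n, rfl⟩ := h
    exact hx _
  · have : ∀ n, ∃ m, n < m ∧ (x ∘ g) n < (x ∘ g) m := by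
      intro n
      obtain ⟨_, ⟨m, rfl⟩, hm'⟩ := (lt_isLUB_iff hy).mp
        (lt_of_le_of_ne (hy.1 ⟨n, rfl⟩) fun e => h ⟨n, e⟩)
      exact ⟨m, lt_of_not_ge fun h' => (hm h').not_gt hm', hm'⟩
    choose F hF using this
    have hit : ∀ n, F^[n + 1] 0 = F (F^[n] 0) := fun n => Function.iterate_succ_apply' F n 0
    have hs : StrictMono fun n => F^[n] 0 :=
      strictMono_nat_of_lt_succ fun n => by rw [hit]; exact (hF _).1
    refine ⟨fun n => (x ∘ g) (F^[n] 0), strictMono_nat_of_lt_succ fun n => by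
      rw [hit]; exact (hF _).2, ?_, fun z hz => hy.2 ?_⟩
    · rintro _ ⟨n, rfl⟩; exact hy.1 ⟨_, rfl⟩
    · rintro _ ⟨n, rfl⟩
      exact (hm (hs.le_apply (x := n))).trans (hz ⟨n, rfl⟩)

theorem range_closed {β : Type} [LinearOrder β] [WellFoundedLT β] (hβ : ℵ₀ < cof β) {f : β → α}
    (hf : IsNormal f) : IsClosed (Subtype.val ⁻¹' range f : Set (S α)) := by
  refine closed_of ?_
  rintro x ⟨g, hg, hx⟩ A hA hne hl
  have hB : BddAbove (f ⁻¹' A) := by
    by_contra hB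
    have : ∀ n, ∃ i, g n ≤ f i := by
      intro n
      obtain ⟨a, ha, h⟩ := (lt_isLUB_iff hl).mp
        ((hg (Nat.lt_succ_self n)).trans_le (hx.1 ⟨_, rfl⟩))
      obtain ⟨i, rfl⟩ := hA ha
      exact ⟨i, h.le⟩
    choose i hi using this
    obtain ⟨j, hj⟩ := bdd hβ (countable_range i)
    obtain ⟨k, hk, hjk⟩ := not_bddAbove_iff.mp hB j
    have h1 : x ≤ f j := hx.2 (by
      rintro _ ⟨n, rfl⟩
      exact (hi n).trans (hf.monotone (hj ⟨n, rfl⟩)))
    exact (h1.trans_lt (hf.strictMono hjk)).not_ge (hl.1 hk)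
  obtain ⟨j, hj⟩ := exists_lub hB
  have hne' : (f ⁻¹' A).Nonempty := by
    obtain ⟨a, ha⟩ := hne
    obtain ⟨i, rfl⟩ := hA ha
    exact ⟨i, ha⟩
  have := hf.map_isLUB hj hne'
  rw [image_preimage_eq_of_subset hA] at this
  exact ⟨j, this.unique hl⟩

theorem not_symWO (hc : ℵ₀ < cof α) (hI : ∀ x : α, #(Iic x) < cof α)
    (hF : FP α) : ¬ SymWO (S α) := by
  rintro ⟨o, ho⟩
  let U : α → Set α := fun x => {y | ∃ (hx : x ∈ S α) (hy : y ∈ S α), o.lt ⟨x, hx⟩ ⟨y, hy⟩}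
  by_cases hT : IsStationary {x | x ∈ S α ∧ ¬ IsStationary (U x)}
  · have : ∀ x, ∃ C, IsClub C ∧ (¬ IsStationary (U x) → Disjoint (U x) C) := by
      intro x
      by_cases h : IsStationary (U x)
      · exact ⟨univ, IsClub.univ, fun h' => absurd h h'⟩
      · obtain ⟨C, hC, hd⟩ := not_isStationary_iff.mp h
        exact ⟨C, hC, fun _ => hd⟩
    choose C hC hd using this
    have hD := diag hc hI C hC
    obtain ⟨f, hf, hfT⟩ := hF ({x | x ∈ S α ∧ ¬ IsStationary (U x)} ∩ {y | ∀ x < y, y ∈ C x})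
      (fun x hx => hx.1.1) fun D hD' => by
        obtain ⟨x, hx⟩ := hT (hD.inter hc.ne' hD')
        exact ⟨x, ⟨hx.1, hx.2.1⟩, hx.2.2⟩
    have hβ : ℵ₀ < cof (Cardinal.aleph.{0} 1).ord.ToType := by
      rw [Ordinal.cof_toType, isRegular_aleph_one.cof_ord]; exact aleph0_lt_aleph_one
    obtain ⟨i₀⟩ := nonempty hβ
    obtain ⟨⟨a, ⟨i, hi⟩, ha⟩, -⟩ := ho _ (range_closed hβ hf) ⟨⟨f i₀, (hfT i₀).1.1⟩, i₀, rfl⟩
    obtain ⟨j, hj⟩ := exists_gt hβ i
    have h1 := ha ⟨f j, (hfT j).1.1⟩ ⟨j, rfl⟩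
    have h2 : f i < f j := hf.strictMono hj
    refine disjoint_left.mp (hd (f i) (hfT i).1.2) ⟨(hfT i).1.1, (hfT j).1.1, ?_⟩
      ((hfT j).2 _ h2)
    have e : (⟨f i, (hfT i).1.1⟩ : S α) = a := Subtype.ext hi
    rw [e]
    refine (o.lt_iff_le_not_ge _ _).mpr ⟨h1, fun h3 => h2.ne ?_⟩
    rw [hi]
    exact congrArg Subtype.val (o.le_antisymm _ _ h1 h3)
  · obtain ⟨C, hC, hd⟩ := not_isStationary_iff.mp hT
    obtain ⟨x, hx, hxC⟩ := S_stat hc hC
    obtain ⟨-, a, ha, hmax⟩ := ho (Subtype.val ⁻¹' C)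
      (closed_of fun x _ A hA hne hl => hC.isLUB_mem hA hne hl) ⟨⟨x, hx⟩, hxC⟩
    have h1 : IsStationary (U a) := by
      by_contra h
      exact disjoint_left.mp hd ⟨a.2, h⟩ ha
    obtain ⟨y, ⟨_, hy, hlt⟩, hyC⟩ := h1 hC
    exact ((o.lt_iff_le_not_ge _ _).mp hlt).2 (hmax ⟨y, hy⟩ hyC)

end general

end Pool.Agent.H.MP_941e3e_gt
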